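import Pool.Agent.Run7.h63.Final

open Filter

namespace Pool.Agent.Results.MP_e4ac67_pr.ConnectiveConstant

/-- Elementary homotopies of edge paths (lists of vertices), for a graph `G` and a map `next` such
that `next a b` is the third vertex of the face on the left of the directed edge `a → b`: insert a
back-and-forth step `a, b, a`; replace one side `a, c` of a triangular face `a, b, c` by the other
two sides `a, b, c`. (`left` and `right` are the two orientations of the face.) -/
inductive Homotopy {V : Type*} (G : SimpleGraph V) (next : V → V → V) : List V → List V → Prop
  | spur (p q : List V) (a b : V) (h : G.Adj a b) :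
      Homotopy G next (p ++ a :: q) (p ++ a :: b :: a :: q)
  | left (p q : List V) (a b : V) (h : G.Adj a b) :
      Homotopy G next (p ++ a :: next a b :: q) (p ++ a :: b :: next a b :: q)
  | right (p q : List V) (a b : V) (h : G.Adj a b) :
      Homotopy G next (p ++ a :: b :: q) (p ++ a :: next a b :: b :: q)

/-- Plane triangulations, given combinatorially: an infinite, connected, locally finite simple
graph with a cyclic order of the neighbours of every vertex (`next v w` is the neighbour of `v`
which follows `w` around `v`; all neighbours of `v` form one orbit), in which all faces are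
triangles `v, w, next v w`, and in which every closed edge path can be contracted over the faces
(the surface obtained by gluing the triangular faces is simply connected, hence, being infinite, it
is the plane). -/
structure PlaneTriangulation (V : Type*) where
  graph : SimpleGraph V
  next : V → V → V
  adj_next : ∀ {v w}, graph.Adj v w → graph.Adj v (next v w)
  adj_next' : ∀ {v w}, graph.Adj v w → graph.Adj w (next v w)
  face : ∀ {v w}, graph.Adj v w → next w (next v w) = v
  one_orbit : ∀ {v w w'}, graph.Adj v w → graph.Adj v w' → ∃ n : ℕ, (next v)^[n] w = w'
  locally_finite : ∀ v, (graph.neighborSet v).Finite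
  connected : graph.Connected
  infinite : Infinite V
  simply_connected : ∀ l : List V, l.IsChain graph.Adj → ∀ x, l.head? = some x →
    l.getLast? = some x → Relation.EqvGen (Homotopy graph next) l [x]

/-- The self-avoiding walks of length `n` from `v`: the lists of `n + 1` distinct vertices which
start at `v` and in which consecutive vertices are adjacent. -/
def selfAvoidingWalks {V : Type*} (G : SimpleGraph V) (v : V) (n : ℕ) : Set (List V) :=
  {l | l.length = n + 1 ∧ l.head? = some v ∧ l.Nodup ∧ l.IsChain G.Adj}

/-- The connective constant `limsup c_n(v)^(1/n)`, as an extended nonnegative real. -/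
noncomputable def connectiveConstant {V : Type*} (G : SimpleGraph V) (v : V) : ENNReal :=
  limsup (fun n : ℕ => ((selfAvoidingWalks G v n).encard : ENNReal) ^ (1 / (n : ℝ))) atTop

/-- conversion to the working definition -/
def PlaneTriangulation.toPT {V : Type*} (T : PlaneTriangulation V) : Run7.h63.PT V where
  G := T.graph
  rot := T.next
  adj_rot := T.adj_next
  adj_rot' := T.adj_next'
  rot_rot := T.face
  orbit := T.one_orbit
  fin := T.locally_finite
  conn := T.connected
  inf := T.infinite
  sc := fun l hl x h1 h2 => by
    refine Relation.EqvGen.mono ?_ _ _ (T.simply_connected l hl x h1 h2)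
    intro a b h
    induction h with
    | spur p q a b h => exact Run7.h63.Move.spur p q a b h
    | left p q a b h => exact Run7.h63.Move.left p q a b h
    | right p q a b h => exact Run7.h63.Move.right p q a b h

theorem encard_saw {V : Type*} [DecidableEq V] (T : PlaneTriangulation V) (v : V) (n : ℕ) :
    (selfAvoidingWalks T.graph v n).encard = ((Run7.h63.saw T.toPT v n).card : ℕ∞) := by
  have h : selfAvoidingWalks T.graph v n =
      (((Run7.h63.saw T.toPT v n).image List.reverse : Finset (List V)) : Set (List V)) := by
    ext l
    simp only [selfAvoidingWalks, Set.mem_ofPred_eq, Finset.coe_image, Set.mem_image,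
      Finset.mem_coe, Run7.h63.mem_saw]
    constructor
    · rintro ⟨h1, h2, h3, h4⟩
      refine ⟨l.reverse, ⟨by simpa using h1, List.nodup_reverse.2 h3, ?_, ?_⟩, by simp⟩
      · rw [List.isChain_reverse]
        exact h4.imp (fun a b hab => hab.symm)
      · rw [List.getLast?_reverse]; exact h2
    · rintro ⟨l', ⟨h1, h2, h3, h4⟩, rfl⟩
      refine ⟨by simpa using h1, ?_, List.nodup_reverse.2 h2, ?_⟩
      · rw [List.head?_reverse]; exact h4
      · rw [List.isChain_reverse]
        exact h3.imp (fun a b hab => hab.symm)
  rw [h, Set.encard_coe_eq_coe_finsetCard, Finset.card_image_of_injective _ List.reverse_injective]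

theorem deg_eq {V : Type*} (T : PlaneTriangulation V) (v : V) :
    (T.graph.neighborSet v).encard = (T.toPT.deg v : ℕ∞) := by
  have h : T.graph.neighborSet v = ((T.toPT.N v : Finset V) : Set V) := by
    ext w
    rw [Finset.mem_coe, Run7.h63.PT.mem_N]
    rfl
  rw [h, Set.encard_coe_eq_coe_finsetCard]
  rfl

/-- For every `k ≥ 1030`, every plane triangulation `T` all of whose degrees are at least `k` has
connective constant at least that of the `k`-regular triangulation `R`. -/
theorem result {V W : Type*} (k : ℕ) (hk : 1030 ≤ k) (T : PlaneTriangulation V)
    (R : PlaneTriangulation W) (hT : ∀ v, (k : ℕ∞) ≤ (T.graph.neighborSet v).encard)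
    (hR : ∀ w, (R.graph.neighborSet w).encard = k) (v : V) (w : W) :
    connectiveConstant R.graph w ≤ connectiveConstant T.graph v := by
  classical
  have h := Run7.h63.mu_le (T := T.toPT) (R := R.toPT) hk
    (fun v => by have := hT v; rw [deg_eq] at this; exact_mod_cast this)
    (fun w => by have := hR w; rw [deg_eq] at this; exact_mod_cast this) v w
  unfold connectiveConstant
  simp only [encard_saw]
  exact h

end Pool.Agent.Results.MP_e4ac67_pr.ConnectiveConstant
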